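import Pool.Agent.U309.ZF.Stm3

/-!
# Project ZF3, package DLW (helper894): the Hadamard formula for the sums over primes
-/

set_option autoImplicit false

open NumberField IsDedekindDomain

namespace Pool.Agent.U894.ZF

open Pool.Agent.U309.ZF

theorem ld_nonneg (K : Type) [Field K] [NumberField K] : 0 ≤ ld K := by
  unfold ld
  refine Real.log_nonneg ?_
  have h : NumberField.discr K ≠ 0 := NumberField.discr_ne_zero K
  have h1 : (1 : ℤ) ≤ |NumberField.discr K| := Int.one_le_abs h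
  exact_mod_cast h1

theorem t_DLW : Pool.Agent.U309.ZF.S_DLW := by
  intro hred hdlx n
  obtain ⟨C1, hC1, h1⟩ := hred n
  obtain ⟨C2, hC2, h2⟩ := hdlx n
  refine ⟨C1 + C2, by positivity, fun K _ _ hn => ?_⟩
  obtain ⟨S, hS0, hS1, hS2⟩ := h2 K hn
  refine ⟨S, hS0, fun δ hδ hδ1 => ?_, hS2⟩
  have h3 := hS1 δ hδ hδ1
  have h4 := (h1 K hn (fun _ => 1) (fun _ => by norm_num) (fun _ => 1) (fun _ _ => by norm_num)
    1 one_ne_zero (fun _ _ _ _ _ => rfl) δ hδ hδ1).2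
  have h5 : (∑' x : HeightOneSpectrum (𝓞 K) × ℕ, (1 : ℝ) * wt δ x) =
      ∑' x : HeightOneSpectrum (𝓞 K) × ℕ, wt δ x := tsum_congr fun x => one_mul _
  have h6 : W (fun p => (pi1 K p : ℝ)) δ 0 = ∑' p : Nat.Primes, (pi1 K p : ℝ) * 1 *
        (Real.log ((p : ℕ) : ℝ) * ((p : ℕ) : ℝ) ^ (-(1 + δ))) := by
    unfold W
    refine tsum_congr fun p => ?_
    rw [zero_mul, Real.cos_zero]
  have h7 : Real.log ((1 : ℕ) : ℝ) = 0 := by rw [Nat.cast_one, Real.log_one]
  rw [h7, add_zero, mul_one, h5, ← h6] at h4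
  have h8 := ld_nonneg K
  have h9 := abs_le.1 h3
  have h10 := abs_le.1 h4
  have h11 : 0 ≤ C1 * ld K := mul_nonneg hC1.le h8
  rw [abs_le]
  constructor
  · linarith [h9.1, h10.2]
  · linarith [h9.2, h10.1]

end Pool.Agent.U894.ZF
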